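import Pool.Agent.W2helper26.CN.Defs
import Pool.Agent.W2helper19.CN.Lines

/-!
# Project CN, piece DES: designs from lines
-/

set_option autoImplicit false

namespace Pool.Agent.W2helper11.CN

open Pool.Agent.W2helper26.CN

lemma on_unique {s p : ℕ} (hp : p.Prime) (hsp : s ≤ p) {ℓ m : ZMod p × ZMod p}
    {v w : Fin s × ZMod p} (hvw : v.1 ≠ w.1) (h1 : On ℓ v) (h2 : On ℓ w) (h3 : On m v)
    (h4 : On m w) : ℓ = m := by
  have : Fact p.Prime := ⟨hp⟩
  unfold On at h1 h2 h3 h4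
  have hne : ((v.1.1 : ℕ) : ZMod p) - ((w.1.1 : ℕ) : ZMod p) ≠ 0 := by
    intro h
    apply hvw
    have h' : ((v.1.1 : ℕ) : ZMod p) = ((w.1.1 : ℕ) : ZMod p) := sub_eq_zero.1 h
    have h'' := (ZMod.natCast_eq_natCast_iff' _ _ _).1 h'
    rw [Nat.mod_eq_of_lt (lt_of_lt_of_le v.1.2 hsp),
      Nat.mod_eq_of_lt (lt_of_lt_of_le w.1.2 hsp)] at h''
    exact Fin.ext h''
  have h5 : (ℓ.2 - m.2) * (((v.1.1 : ℕ) : ZMod p) - ((w.1.1 : ℕ) : ZMod p)) = 0 := by
    linear_combination (-1 : ZMod p) * h1 + h2 + h3 - h4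
  have h6 : ℓ.2 = m.2 := by
    rcases mul_eq_zero.1 h5 with h | h
    · exact sub_eq_zero.1 h
    · exact absurd h hne
  have h7 : ℓ.1 = m.1 := by
    rw [h6] at h1
    linear_combination (-1 : ZMod p) * h1 + h3
  exact Prod.ext h7 h6

theorem p_des : P_DES := by
  classical
  intro n s p q κ L hp hs hsp hn hq hL hκ
  have : Fact p.Prime := ⟨hp⟩
  obtain ⟨A, hA, hcl⟩ := Pool.Agent.W2helper19.CN.p_lines s p (κ + 1) L hp hs hsp hL (by omega)
  refine ⟨A.card, hA, ?_⟩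
  have hκ1 : 1 ≤ κ := by
    refine le_trans ?_ hκ
    exact Nat.mul_pos (by positivity) (by omega)
  have hcard : Fintype.card (Fin s × ZMod p × Fin q) ≤ Fintype.card (Fin n) := by
    rw [Fintype.card_prod, Fintype.card_prod, Fintype.card_fin, Fintype.card_fin,
      Fintype.card_fin, ZMod.card p, ← mul_assoc]
    exact hn
  obtain ⟨f⟩ := Function.Embedding.nonempty_of_card_le hcard
  have key : ∀ (l : Fin A.card) (a : Fin s × Fin q) (v : Fin s × ZMod p × Fin q),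
      f (a.1, (A.equivFin.symm l).1.1 + (A.equivFin.symm l).1.2 * ((a.1.1 : ℕ) : ZMod p), a.2) =
        f v → v.1 = a.1 ∧ On (A.equivFin.symm l).1 (v.1, v.2.1) := by
    intro l a v h
    have h' := f.injective h
    subst h'
    exact ⟨rfl, rfl⟩
  refine ⟨⟨fun l a => f (a.1, (A.equivFin.symm l).1.1 +
    (A.equivFin.symm l).1.2 * ((a.1.1 : ℕ) : ZMod p), a.2), ?_, ?_⟩⟩
  · intro l a b h
    have h' := f.injective h
    simp only [Prod.mk.injEq] at h'
    exact Prod.ext h'.1 h'.2.2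
  · intro τ hτ
    have hex : ∀ x : Fin (κ + 1), ∃ v : Fin s × ZMod p × Fin q, f v = τ x := by
      intro x
      have : Nontrivial (Fin (κ + 1)) := Fin.nontrivial_iff_two_le.2 (by omega)
      obtain ⟨y, hy⟩ := exists_ne x
      obtain ⟨l, a, b, h1, -, -⟩ := hτ x y hy.symm
      exact ⟨_, h1⟩
    choose σ hσ using hex
    have hrow : ∀ x y, x ≠ y → (σ x).1 ≠ (σ y).1 := by
      intro x y hxy
      obtain ⟨l, a, b, h1, h2, h3⟩ := hτ x y hxy
      have k1 := key l a (σ x) (h1.trans (hσ x).symm)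
      have k2 := key l b (σ y) (h2.trans (hσ y).symm)
      rw [k1.1, k2.1]
      exact h3
    obtain ⟨ℓ, hℓ, hon⟩ := hcl (fun x => ((σ x).1, (σ x).2.1)) (fun x y hxy => hrow x y hxy)
      (fun x y hxy => by
        obtain ⟨l, a, b, h1, h2, h3⟩ := hτ x y hxy
        exact ⟨(A.equivFin.symm l).1, (A.equivFin.symm l).2,
          (key l a (σ x) (h1.trans (hσ x).symm)).2, (key l b (σ y) (h2.trans (hσ y).symm)).2⟩)
    refine ⟨A.equivFin ⟨ℓ, hℓ⟩, ?_⟩
    intro x y hxy l a b h1 h2 h3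
    have k1 := key l a (σ x) (h1.trans (hσ x).symm)
    have k2 := key l b (σ y) (h2.trans (hσ y).symm)
    have hu := on_unique hp hsp (v := ((σ x).1, (σ x).2.1)) (w := ((σ y).1, (σ y).2.1))
      (hrow x y hxy) k1.2 k2.2 (hon x) (hon y)
    have : A.equivFin.symm l = ⟨ℓ, hℓ⟩ := Subtype.ext hu
    rw [← this, Equiv.apply_symm_apply]

end Pool.Agent.W2helper11.CN
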