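import Pool.Agent.W2helper26.CN.Defs
import Pool.Agent.W2helper86.KQ.Eqv

/-!
# Project CN, piece EQ: windows shorter than `2 ^ t` are as good as everything
-/

set_option autoImplicit false

namespace Pool.Agent.W2helper11.CN

open Finset Pool.Agent.H540R2 Pool.Agent.H540R2.Circuit Pool.Agent.W953.NW
  Pool.Agent.W953.KC Pool.Agent.W953.RD Pool.Agent.W2helper86.KQ Pool.Agent.W2helper26.CN

lemma pow_bound {n : ℕ} (hn : 2 ≤ n) (a S A : ℕ) (hS : S ≤ 2 * n ^ a)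
    (hA : A ≤ 2 ^ 21 * n ^ 28 * (S + 1)) : A ≤ n ^ (a + 51) := by
  have h1 : 2 ^ 21 ≤ n ^ 21 := Nat.pow_le_pow_left hn 21
  have h2 : 1 ≤ n ^ a := Nat.one_le_pow _ _ (by omega)
  have h3 : 4 ≤ n ^ 2 := by
    calc 4 = 2 ^ 2 := by norm_num
      _ ≤ n ^ 2 := Nat.pow_le_pow_left hn 2
  have h4 : S + 1 ≤ n ^ a * n ^ 2 := by nlinarith
  calc A ≤ 2 ^ 21 * n ^ 28 * (S + 1) := hA
    _ ≤ n ^ 21 * n ^ 28 * (n ^ a * n ^ 2) :=
        Nat.mul_le_mul (Nat.mul_le_mul_right _ h1) h4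
    _ = n ^ (a + 51) := by
        rw [← pow_add, ← pow_add, ← pow_add]
        congr 1
        omega

theorem on_of_all' {k s t W : ℕ → ℕ} (hW : ∀ n, W n ≤ 2 ^ t n)
    (h : PolyAll k s) : PolyOn k s t W := by
  obtain ⟨a, h⟩ := h
  refine ⟨a + 51, ?_⟩
  intro n hn m
  obtain ⟨R, hR1, hR2⟩ := h n hn
  choose F hF1 hF2 hF3 using fun o => window_one (R.C o) m (t n)
  refine ⟨R.map F, fun o => ⟨hF1 o, ?_⟩, fun x hx1 hx2 => ?_⟩
  · have h1 : 2 * (R.C o).size ≤ 2 * n ^ a := Nat.mul_le_mul_left 2 (hR1 o)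
    refine pow_bound hn a (2 * (R.C o).size) (F o).size h1 ?_
    refine (hF2 o).trans ?_
    have h2 := isz_le hn (t n)
    have h3 : 1 ≤ 2 ^ 21 * n ^ 28 := Nat.mul_pos (by norm_num) (Nat.one_le_pow _ _ (by omega))
    nlinarith
  · refine (hR2 x).trans (prob_le_of_imp R F _ _ fun o ho => ?_)
    unfold Right at ho ⊢
    rw [hF3 o x hx1 (lt_of_lt_of_le hx2 (Nat.add_le_add_left (hW n) m))]
    exact ho

theorem all_of_on' {k s t W : ℕ → ℕ} (hW : ∀ n, 1 ≤ W n)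
    (h : PolyOn k s t W) : PolyAll k s := by
  obtain ⟨a, h⟩ := h
  refine ⟨a + 51, ?_⟩
  intro n hn
  have h' := h n hn
  clear h
  obtain ⟨N, hN⟩ : ∃ N : ℕ, N = n.choose 2 := ⟨_, rfl⟩
  choose R hR1 hR2 using h'
  have hsz : ∀ m o, ((R m).C o).size ≤ n ^ a := fun m o => (hR1 m o).2
  -- the circuits for the slices
  set Cf : (∀ i : Fin (N + 1), (R (i : ℕ)).Ω) → ℕ → Circuit (n.choose 2) := fun o a =>
    if ha : a < N + 1 then (R ((⟨a, ha⟩ : Fin (N + 1)) : ℕ)).C (o ⟨a, ha⟩)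
    else (R ((0 : Fin (N + 1)) : ℕ)).C (o 0) with hCf
  have hCs : ∀ o b, (Cf o b).size ≤ n ^ a := by
    intro o b
    simp only [hCf]
    split_ifs with hb
    · exact hsz _ _
    · exact hsz _ _
  choose F hF1 hF2 using fun o => mux_one (Cf o) (hCs o)
  refine ⟨prodR (fun i : Fin (N + 1) => R i) F, fun o => ?_, fun x => ?_⟩
  · refine pow_bound hn a (n ^ a) (F o).size (by omega) ((hF1 o).trans (msz_le hn (n ^ a)))
  · have hx : wt x < N + 1 := by
      rw [hN]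
      exact Nat.lt_succ_of_le (wt_le x)
    have hx2 := hR2 (wt x) x le_rfl (by
      have := hW n
      show wt x < wt x + W n
      omega)
    refine hx2.trans ?_
    refine prod_prob (fun i : Fin (N + 1) => R i) F ⟨wt x, hx⟩ _ _ fun o ho => ?_
    have h1 : Cf o (wt x) = (R ((⟨wt x, hx⟩ : Fin (N + 1)) : ℕ)).C (o ⟨wt x, hx⟩) := by
      simp only [hCf]
      rw [dif_pos hx]
    unfold Right at ho ⊢
    rw [hF2 o x, h1]
    exact ho

theorem p_eq : P_EQ := by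
  intro k s t W hW
  exact ⟨all_of_on' fun n => (hW n).1, on_of_all' fun n => (hW n).2⟩

end Pool.Agent.W2helper11.CN
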