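import Pool.Agent.W2helper26.CN.Defs

/-!
# Project CN, piece NUM: the choice of the parameters
-/

set_option autoImplicit false

namespace Pool.Agent.W2helper11.CN

open Pool.Agent.W2helper26.CN

lemma add_three_le (β : ℕ) (h : 1 ≤ β) : β + 3 ≤ 2 ^ (β + 1) := by
  induction β, h using Nat.le_induction with
  | base => norm_num
  | succ n hn ih =>
    rw [pow_succ]
    omega

theorem p_num : P_NUM := by
  refine ⟨600, ?_⟩
  intro g w l hw hl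
  obtain ⟨κ, hκ⟩ : ∃ κ : ℕ, κ = 192 * l ^ 3 * w := ⟨_, rfl⟩
  have hl1 : 1 ≤ l := by omega
  have hl3 : 8 ≤ l ^ 3 := by
    calc 8 = 2 ^ 3 := by norm_num
      _ ≤ l ^ 3 := Nat.pow_le_pow_left hl 3
  have hκ8 : 192 * 8 ≤ κ := by
    rw [hκ]
    calc 192 * 8 ≤ 192 * l ^ 3 := Nat.mul_le_mul_left _ hl3
      _ ≤ 192 * l ^ 3 * w := Nat.le_mul_of_pos_right _ hw
  have hκ0 : κ ≠ 0 := by omega
  have hwκ : w ≤ κ := by
    rw [hκ]
    exact Nat.le_mul_of_pos_left _ (by positivity)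
  obtain ⟨β, hβ⟩ : ∃ β : ℕ, β = Nat.log 2 κ + 1 := ⟨_, rfl⟩
  have hβ1 : 1 ≤ β := by omega
  have hκβ : κ + 1 ≤ 2 ^ β := by
    rw [hβ]
    exact Nat.lt_pow_succ_log_self (by norm_num) κ
  have hβκ : 2 ^ β ≤ 2 * κ := by
    rw [hβ, pow_succ]
    have := Nat.pow_log_le_self 2 hκ0
    omega
  obtain ⟨b, hb⟩ : ∃ b : ℕ, b = 16 * β + 48 := ⟨_, rfl⟩
  have hbβ : b ≤ 2 ^ (β + 5) := by
    have h1 := add_three_le β hβ1
    calc b = 2 ^ 4 * (β + 3) := by rw [hb]; ring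
      _ ≤ 2 ^ 4 * 2 ^ (β + 1) := Nat.mul_le_mul_left _ h1
      _ = 2 ^ (β + 5) := by rw [← pow_add]; congr 1; omega
  have hκβ' : κ ≤ 2 ^ β := by omega
  obtain ⟨X, hX⟩ : ∃ X : ℕ, X = 64 * ((κ + 1) * b * κ * κ) := ⟨_, rfl⟩
  have hXb : X ≤ 2 ^ (4 * β + 11) := by
    rw [hX]
    calc 64 * ((κ + 1) * b * κ * κ) ≤ 2 ^ 6 * (2 ^ β * 2 ^ (β + 5) * 2 ^ β * 2 ^ β) := by
          gcongr
          norm_num
      _ = 2 ^ (4 * β + 11) := by
          rw [← pow_add, ← pow_add, ← pow_add, ← pow_add]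
          congr 1
          omega
  have hκpoly : κ ≤ w * l ^ 11 := by
    have h8 : 192 ≤ l ^ 8 := by
      calc 192 ≤ 2 ^ 8 := by norm_num
        _ ≤ l ^ 8 := Nat.pow_le_pow_left hl 8
    calc κ = 192 * l ^ 3 * w := hκ
      _ ≤ l ^ 8 * l ^ 3 * w := by gcongr
      _ = w * l ^ 11 := by ring
  refine ⟨κ, b, by omega, by omega, ?_, ?_, ?_, ?_, ?_⟩
  · have h1 : 3 * l + 5 ≤ 6 * l := by omega
    have h2 : l + 2 ≤ 2 * l := by omega
    calc (3 * l + 5) ^ 2 * (l + 2) ≤ (6 * l) ^ 2 * (2 * l) := by gcongr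
      _ = 72 * l ^ 3 := by ring
      _ ≤ 192 * l ^ 3 := Nat.mul_le_mul_right _ (by norm_num)
      _ ≤ 192 * l ^ 3 * w := Nat.le_mul_of_pos_right _ hw
      _ = κ := hκ.symm
  · have h2 : 2 ≤ l * w := by
      calc 2 ≤ l := hl
        _ ≤ l * w := Nat.le_mul_of_pos_right _ hw
    calc κ + 1 ≤ 2 * κ := by omega
      _ ≤ l * w * (w * l ^ 11) := Nat.mul_le_mul h2 hκpoly
      _ = w ^ 2 * l ^ 12 := by ring
      _ ≤ w ^ 12 * l ^ 12 :=
          Nat.mul_le_mul_right _ (Nat.pow_le_pow_right hw (by norm_num))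
      _ = (w * l) ^ 12 := by rw [mul_pow]
      _ ≤ (w * l) ^ 600 := Nat.pow_le_pow_right (Nat.mul_pos hw hl1) (by norm_num)
  · rw [← hX]
    calc 8 * w * X ≤ 2 ^ 3 * 2 ^ β * 2 ^ (4 * β + 11) := by
          gcongr
          · norm_num
          · exact hwκ.trans hκβ'
      _ = 2 ^ (5 * β + 14) := by
          rw [← pow_add, ← pow_add]
          congr 1
          omega
      _ ≤ 2 ^ b := Nat.pow_le_pow_right (by norm_num) (by omega)
  · unfold Pool.Agent.H559R4.apx2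
    rw [← hX]
    calc 4 * w * (2 ^ w * ((κ + 1) * X ^ κ) ^ 2)
        ≤ 2 ^ 2 * 2 ^ β * (2 ^ κ * (2 ^ β * (2 ^ (4 * β + 11)) ^ κ) ^ 2) := by
          gcongr
          · norm_num
          · exact hwκ.trans hκβ'
          · norm_num
      _ = 2 ^ (2 + β + (κ + (β + (4 * β + 11) * κ) * 2)) := by
          rw [← pow_mul 2 (4 * β + 11) κ, ← pow_add 2 β, ← pow_mul 2 (β + (4 * β + 11) * κ) 2,
            ← pow_add 2 κ, ← pow_add 2 2 β, ← pow_add 2 (2 + β)]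
      _ ≤ 2 ^ ((κ + 1) * b) := by
          apply Nat.pow_le_pow_right (by norm_num)
          rw [hb]
          nlinarith [Nat.zero_le (β * κ), Nat.zero_le κ, Nat.zero_le β]
  · have h1 : κ + 1 + g ≤ 2 * κ * (g + 1) := by nlinarith
    have h2 : (2 ^ b) ^ 2 = 2 ^ 96 * (2 ^ β) ^ 32 := by
      rw [← pow_mul, ← pow_mul, ← pow_add, hb]
      congr 1
      omega
    have hW1 : 1 ≤ w := hw
    calc 256 * w * (κ + 1 + g) ^ 4 * (2 ^ b) ^ 2
        = 2 ^ 8 * w * (κ + 1 + g) ^ 4 * (2 ^ 96 * (2 ^ β) ^ 32) := by rw [h2]; norm_num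
      _ ≤ 2 ^ 8 * w * (2 * κ * (g + 1)) ^ 4 * (2 ^ 96 * (2 * κ) ^ 32) := by gcongr
      _ = 2 ^ 140 * w * κ ^ 36 * (g + 1) ^ 4 := by ring
      _ ≤ l ^ 140 * w * (w * l ^ 11) ^ 36 * (g + 1) ^ 4 :=
          Nat.mul_le_mul_right _ (Nat.mul_le_mul (Nat.mul_le_mul_right _
            (Nat.pow_le_pow_left hl 140)) (Nat.pow_le_pow_left hκpoly 36))
      _ = w ^ 37 * l ^ 536 * (g + 1) ^ 4 := by ring
      _ ≤ w ^ 600 * l ^ 600 * (g + 1) ^ 600 := by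
          have e1 : w ^ 37 ≤ w ^ 600 := Nat.pow_le_pow_right hw (by norm_num)
          have e2 : l ^ 536 ≤ l ^ 600 := Nat.pow_le_pow_right hl1 (by norm_num)
          have e3 : (g + 1) ^ 4 ≤ (g + 1) ^ 600 := Nat.pow_le_pow_right (by omega) (by norm_num)
          exact Nat.mul_le_mul (Nat.mul_le_mul e1 e2) e3
      _ = ((g + 1) * w * l) ^ 600 := by
          rw [mul_pow, mul_pow, mul_comm ((g + 1) ^ 600) (w ^ 600), mul_right_comm]

end Pool.Agent.W2helper11.CN
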